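import Pool.Agent.Helper57.BG.Stmts

/-!
# A': block FJ, the Fejer weight and its sums over residue classes
-/

set_option autoImplicit false
open MeasureTheory Set Filter Topology Asymptotics
open scoped FourierTransform
open Pool.Agent.Helper57.BG

namespace Pool.Agent.Helper49.AP

/-- The triangle function. -/
noncomputable def tri (x : ℝ) : ℝ := max 0 (1 - |x|)

lemma fj_nonneg (Y m : ℝ) : 0 ≤ fj Y m := sq_nonneg _

lemma fj_neg (Y m : ℝ) : fj Y (-m) = fj Y m := by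
  unfold fj
  rw [show Real.pi * -m / Y = -(Real.pi * m / Y) by ring, Real.sinc_neg]

lemma fj_le_one (Y m : ℝ) : fj Y m ≤ 1 := by
  unfold fj
  rw [sq_le_one_iff_abs_le_one]
  exact Real.abs_sinc_le_one _

lemma tri_nonneg (x : ℝ) : 0 ≤ tri x := le_max_left _ _

lemma tri_le_one (x : ℝ) : tri x ≤ 1 := max_le zero_le_one (by linarith [abs_nonneg x])

lemma tri_abs (x : ℝ) : tri |x| = tri x := by unfold tri; rw [abs_abs]

lemma tri_zero : tri 0 = 1 := by unfold tri; simp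

lemma tri_cont : Continuous tri := by unfold tri; fun_prop

lemma tri_eq_zero {x : ℝ} (h : 1 ≤ |x|) : tri x = 0 := by
  unfold tri
  exact max_eq_left (by linarith)

lemma tri_of_le {x : ℝ} (h : |x| ≤ 1) : tri x = 1 - |x| := by
  unfold tri
  exact max_eq_right (by linarith)

/-- `2 / π ≤ sinc x` for `|x| ≤ π / 2` -/
lemma sinc_ge {x : ℝ} (hx : |x| ≤ Real.pi / 2) : 2 / Real.pi ≤ Real.sinc x := by
  have hpi := Real.pi_pos
  have habs : Real.sinc x = Real.sinc |x| := by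
    rcases abs_cases x with ⟨h, _⟩ | ⟨h, _⟩
    · rw [h]
    · rw [h, Real.sinc_neg]
  rw [habs]
  obtain ⟨y, hy⟩ : ∃ y, y = |x| := ⟨_, rfl⟩
  rw [← hy] at hx ⊢
  have hy0 : 0 ≤ y := by rw [hy]; exact abs_nonneg x
  rcases eq_or_lt_of_le hy0 with h | h
  · rw [← h, Real.sinc_zero, div_le_one hpi]
    linarith [Real.pi_gt_three]
  · rw [Real.sinc_of_ne_zero h.ne', le_div_iff₀ h]
    have := Real.mul_le_sin hy0 hx
    linarith

lemma fj_ge {Y m : ℝ} (hY : 0 < Y) (hm : |m| ≤ Y / 2) : 4 / Real.pi ^ 2 ≤ fj Y m := by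
  have hpi := Real.pi_pos
  have h1 : |Real.pi * m / Y| ≤ Real.pi / 2 := by
    rw [abs_div, abs_mul, abs_of_pos hpi, abs_of_pos hY, div_le_div_iff₀ hY two_pos]
    nlinarith
  have h2 := sinc_ge h1
  unfold fj
  calc 4 / Real.pi ^ 2 = (2 / Real.pi) ^ 2 := by ring
    _ ≤ _ := pow_le_pow_left₀ (by positivity) h2 2

/-- `sinc ^ 2 ≤ 2 / (1 + y ^ 2)` -/
lemma sinc_sq_le (y : ℝ) : Real.sinc y ^ 2 ≤ 2 / (1 + y ^ 2) := by
  rw [le_div_iff₀ (by positivity)]
  have h1 : Real.sinc y ^ 2 ≤ 1 := by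
    rw [sq_le_one_iff_abs_le_one]
    exact Real.abs_sinc_le_one _
  have h2 : Real.sinc y ^ 2 * y ^ 2 ≤ 1 := by
    rcases eq_or_ne y 0 with h | h
    · rw [h]; norm_num
    · rw [Real.sinc_of_ne_zero h, div_pow, div_mul_cancel₀ _ (pow_ne_zero 2 h)]
      exact Real.sin_sq_le_one y
  nlinarith

lemma summable_fj_aux {Y : ℝ} (hY : 0 < Y) (q : ℕ) (hq : 0 < q) (m0 : ℤ) :
    Summable (fun n : ℤ => fj Y (m0 + q * n)) := by
  have hpi := Real.pi_pos
  have hq0 : (0:ℝ) < q := by exact_mod_cast hq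
  obtain ⟨K, hK⟩ : ∃ K : ℝ, K = 2 + 2 * (m0 : ℝ) ^ 2 + 2 * Y ^ 2 / Real.pi ^ 2 := ⟨_, rfl⟩
  have hK0 : 0 < K := by rw [hK]; positivity
  refine Summable.of_norm_bounded_eventually
    (g := fun n : ℤ => 2 * K * |(n : ℝ)| ^ (-2 : ℝ)) ((Real.summable_abs_int_rpow (by norm_num)).mul_left _) ?_
  have h0 : ∀ᶠ n : ℤ in cofinite, n ≠ 0 := by
    rw [eventually_cofinite]
    simp
  filter_upwards [h0] with n hn
  rw [Real.norm_of_nonneg (fj_nonneg _ _)]
  have hn0 : (n:ℝ) ≠ 0 := by exact_mod_cast hn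
  have hn1 : (1:ℝ) ≤ (n:ℝ) ^ 2 := by
    have : 1 ≤ n ^ 2 := by
      have h3 : 0 < n ^ 2 := by positivity
      omega
    exact_mod_cast this
  have e1 : |(n : ℝ)| ^ (-2 : ℝ) = ((n:ℝ) ^ 2)⁻¹ := by
    rw [Real.rpow_neg (abs_nonneg _)]
    congr 1
    rw [show (2:ℝ) = ((2:ℕ) : ℝ) by norm_num, Real.rpow_natCast, sq_abs]
  rw [e1]
  unfold fj
  refine (sinc_sq_le _).trans ?_
  obtain ⟨z, hz⟩ : ∃ z : ℝ, z = m0 + q * n := ⟨_, rfl⟩
  rw [← hz]
  have h4 : (n:ℝ) ^ 2 ≤ 2 * z ^ 2 + 2 * (m0:ℝ) ^ 2 := by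
    have h5 : (q:ℝ) * n = z - m0 := by rw [hz]; ring
    have h6 : (n:ℝ) ^ 2 ≤ ((q:ℝ) * n) ^ 2 := by
      rw [mul_pow]
      have : (1:ℝ) ≤ (q:ℝ) ^ 2 := by
        have : (1:ℝ) ≤ q := by exact_mod_cast hq
        nlinarith
      nlinarith [sq_nonneg (n:ℝ)]
    rw [h5] at h6
    nlinarith [sq_nonneg (z + m0)]
  have h7 : (n:ℝ) ^ 2 ≤ K * (1 + (Real.pi * z / Y) ^ 2) := by
    have h8 : (Real.pi * z / Y) ^ 2 * (2 * Y ^ 2 / Real.pi ^ 2) = 2 * z ^ 2 := by
      field_simp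
    have h9 : 0 ≤ (Real.pi * z / Y) ^ 2 := sq_nonneg _
    have h10 : 2 * z ^ 2 ≤ K * (Real.pi * z / Y) ^ 2 := by
      rw [← h8, mul_comm]
      apply mul_le_mul_of_nonneg_right _ h9
      rw [hK]
      have : 0 ≤ 2 + 2 * (m0:ℝ) ^ 2 := by positivity
      linarith
    have h11 : 2 * (m0:ℝ) ^ 2 ≤ K := by
      rw [hK]
      have : 0 ≤ 2 * Y ^ 2 / Real.pi ^ 2 := by positivity
      linarith
    nlinarith
  have hn2 : 0 < (n:ℝ) ^ 2 := by positivity
  rw [← div_eq_mul_inv, div_le_div_iff₀ (by positivity) hn2]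
  linarith

/-- The phase of the triangle. -/
noncomputable def trf (a θ : ℝ) (x : ℝ) : ℂ := (tri (a * x) : ℂ) * Complex.exp (2 * Real.pi * Complex.I * θ * x)

lemma trf_cont (a θ : ℝ) : Continuous (trf a θ) := by
  unfold trf
  apply Continuous.mul
  · exact Complex.continuous_ofReal.comp (tri_cont.comp (by fun_prop))
  · fun_prop

lemma trf_zero {a θ x : ℝ} (ha : 0 < a) (h : 1 / a ≤ |x|) : trf a θ x = 0 := by
  unfold trf
  rw [tri_eq_zero, Complex.ofReal_zero, zero_mul]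
  rw [abs_mul, abs_of_pos ha]
  rw [div_le_iff₀ ha] at h
  linarith

/-- `2 ∫_0^{1/a} (1 - a x) cos (b x) dx = a⁻¹ (sinc (b / (2 a))) ^ 2` -/
lemma int_tri_cos {a : ℝ} (ha : 0 < a) (b : ℝ) :
    2 * ∫ x in (0:ℝ)..(1 / a), (1 - a * x) * Real.cos (b * x) = a⁻¹ * Real.sinc (b / (2 * a)) ^ 2 := by
  rcases eq_or_ne b 0 with hb | hb
  · subst hb
    have h1 : ∀ x : ℝ, HasDerivAt (fun x => x - a * x ^ 2 / 2) ((1 - a * x) * Real.cos (0 * x)) x := by
      intro x
      refine ((hasDerivAt_id' x).sub (((hasDerivAt_pow 2 x).const_mul a).div_const 2)).congr_deriv ?_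
      rw [zero_mul, Real.cos_zero]
      push_cast
      ring
    rw [intervalIntegral.integral_eq_sub_of_hasDerivAt (fun x _ => h1 x) (by
      apply Continuous.intervalIntegrable
      fun_prop)]
    rw [zero_div, Real.sinc_zero]
    field_simp
    ring
  · have h1 : ∀ x : ℝ, HasDerivAt (fun x => (1 - a * x) * Real.sin (b * x) / b - a * Real.cos (b * x) / b ^ 2)
        ((1 - a * x) * Real.cos (b * x)) x := by
      intro x
      have e1 : HasDerivAt (fun x : ℝ => b * x) b x := by simpa using (hasDerivAt_id x).const_mul b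
      have e2 : HasDerivAt (fun x : ℝ => 1 - a * x) (-a) x := by
        simpa using ((hasDerivAt_id x).const_mul a).const_sub 1
      have e3 := (Real.hasDerivAt_sin (b * x)).comp x e1
      have e4 := (Real.hasDerivAt_cos (b * x)).comp x e1
      refine (((e2.mul e3).div_const b).sub ((e4.const_mul a).div_const (b ^ 2))).congr_deriv ?_
      simp only [Function.comp]
      field_simp
      ring
    rw [intervalIntegral.integral_eq_sub_of_hasDerivAt (fun x _ => h1 x) (by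
      apply Continuous.intervalIntegrable
      fun_prop)]
    have hb2 : b / (2 * a) ≠ 0 := div_ne_zero hb (by positivity)
    rw [Real.sinc_of_ne_zero hb2]
    have h2 : Real.cos (b * (1 / a)) = 1 - 2 * Real.sin (b / (2 * a)) ^ 2 := by
      rw [show b * (1 / a) = 2 * (b / (2 * a)) by field_simp, Real.cos_two_mul, Real.sin_sq]
      ring
    rw [h2]
    simp only [mul_zero, sub_zero, Real.cos_zero, Real.sin_zero]
    field_simp
    ring

/-- Fourier transform -/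
lemma fourier_trf {a : ℝ} (ha : 0 < a) (θ ξ : ℝ) :
    𝓕 (trf a θ) ξ = ((a⁻¹ * Real.sinc (Real.pi * (ξ - θ) / a) ^ 2 : ℝ) : ℂ) := by
  rw [Real.fourier_eq']
  obtain ⟨b, hb⟩ : ∃ b : ℝ, b = 2 * Real.pi * (ξ - θ) := ⟨_, rfl⟩
  have e1 : ∀ v : ℝ, Complex.exp (↑(-2 * Real.pi * inner ℝ v ξ) * Complex.I) • trf a θ v =
      (tri (a * v) : ℂ) * Complex.exp (-(b * v : ℝ) * Complex.I) := by
    intro v
    unfold trf
    rw [smul_eq_mul, mul_left_comm, ← Complex.exp_add]
    congr 2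
    rw [hb]
    simp only [RCLike.inner_apply, conj_trivial]
    push_cast
    ring
  simp_rw [e1]
  obtain ⟨g, hg⟩ : ∃ g : ℝ → ℂ, g = fun v => (tri (a * v) : ℂ) * Complex.exp (-(b * v : ℝ) * Complex.I) := ⟨_, rfl⟩
  have hgc : Continuous g := by
    rw [hg]
    apply Continuous.mul
    · exact Complex.continuous_ofReal.comp (tri_cont.comp (by fun_prop))
    · fun_prop
  have hgs : HasCompactSupport g := by
    apply HasCompactSupport.intro (isCompact_closedBall (0:ℝ) (1 / a))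
    intro x hx
    rw [mem_closedBall_zero_iff, Real.norm_eq_abs, not_le] at hx
    rw [hg]
    simp only
    rw [tri_eq_zero, Complex.ofReal_zero, zero_mul]
    rw [abs_mul, abs_of_pos ha]
    rw [div_lt_iff₀ ha] at hx
    linarith
  have hgi : Integrable g := hgc.integrable_of_hasCompactSupport hgs
  have h2 : ∫ v, g v = (1 / 2 : ℂ) * ∫ v, (g v + g (-v)) := by
    rw [integral_add hgi hgi.comp_neg, integral_neg_eq_self g]
    ring
  have h3 : ∀ v : ℝ, g v + g (-v) = ((2 * (tri (a * |v|) * Real.cos (b * |v|)) : ℝ) : ℂ) := by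
    intro v
    rw [hg]
    simp only
    have t1 : tri (a * -v) = tri (a * v) := by
      rw [← tri_abs (a * -v), ← tri_abs (a * v)]
      congr 1
      rw [abs_mul, abs_mul, abs_neg]
    have t2 : tri (a * |v|) = tri (a * v) := by
      rw [← tri_abs (a * |v|), ← tri_abs (a * v)]
      congr 1
      rw [abs_mul, abs_mul, abs_abs]
    have t3 : Real.cos (b * |v|) = Real.cos (b * v) := by
      rw [← Real.cos_abs (b * |v|), ← Real.cos_abs (b * v)]
      congr 1
      rw [abs_mul, abs_mul, abs_abs]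
    rw [t1, t2, t3]
    push_cast
    rw [Complex.cos]
    have e5 : Complex.exp (-((b:ℂ) * -(v:ℂ)) * Complex.I) = Complex.exp ((b:ℂ) * v * Complex.I) := by
      congr 1
      ring
    have e6 : Complex.exp (-((b:ℂ) * (v:ℂ)) * Complex.I) = Complex.exp (-(b:ℂ) * v * Complex.I) := by
      congr 1
      ring
    rw [e5, e6]
    ring
  have h4 : ∫ v, g v = ((∫ x in (0:ℝ)..(1 / a), 2 * ((1 - a * x) * Real.cos (b * x)) : ℝ) : ℂ) := by
    rw [h2]
    simp_rw [h3]
    rw [integral_complex_ofReal, integral_comp_abs (f := fun v => 2 * (tri (a * v) * Real.cos (b * v)))]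
    have h5 : ∫ x in Ioi (0:ℝ), 2 * (tri (a * x) * Real.cos (b * x)) =
        ∫ x in (0:ℝ)..(1 / a), 2 * ((1 - a * x) * Real.cos (b * x)) := by
      rw [intervalIntegral.integral_of_le (by positivity)]
      rw [← integral_indicator measurableSet_Ioi, ← integral_indicator measurableSet_Ioc]
      congr 1
      ext x
      by_cases hx : 0 < x
      · rw [indicator_of_mem (show x ∈ Ioi (0:ℝ) from hx)]
        by_cases hx2 : x ≤ 1 / a
        · rw [indicator_of_mem (show x ∈ Ioc 0 (1 / a) from ⟨hx, hx2⟩)]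
          rw [le_div_iff₀ ha] at hx2
          have h6 : |a * x| = a * x := abs_of_pos (by positivity)
          rw [tri_of_le (by rw [h6]; linarith), h6]
        · rw [indicator_of_notMem (fun h => hx2 h.2)]
          rw [not_le, div_lt_iff₀ ha] at hx2
          have h6 : |a * x| = a * x := abs_of_pos (by positivity)
          rw [tri_eq_zero (by rw [h6]; linarith), zero_mul, mul_zero]
      · rw [indicator_of_notMem (show x ∉ Ioi (0:ℝ) from hx), indicator_of_notMem (fun h => hx h.1)]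
    rw [h5]
    push_cast
    ring
  have h8 : ∫ v, (tri (a * v) : ℂ) * Complex.exp (-(b * v : ℝ) * Complex.I) = ∫ v, g v := by rw [hg]
  rw [h8, h4, intervalIntegral.integral_const_mul, int_tri_cos ha b]
  congr 4
  rw [hb]
  field_simp

/-- Poisson: the sum of the Fejer weight over a residue class. `B` is any bound for the frequencies. -/
theorem fj_tsum {Y : ℝ} (hY : 0 < Y) (q : ℕ) (hq : 0 < q) (m0 : ℤ) (B : ℕ) (hB : (q : ℝ) / Y ≤ B) :
    ((∑' n : ℤ, fj Y (m0 + q * n) : ℝ) : ℂ) = ((Y / q : ℝ) : ℂ) * ∑ η ∈ Finset.Icc (-(B : ℤ)) B,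
      (tri (η * Y / q) : ℂ) * Complex.exp (2 * Real.pi * Complex.I * (η * m0 / q)) := by
  have hpi := Real.pi_pos
  have hq0 : (0:ℝ) < q := by exact_mod_cast hq
  obtain ⟨a, ha⟩ : ∃ a : ℝ, a = Y / q := ⟨_, rfl⟩
  obtain ⟨θ, hθ⟩ : ∃ θ : ℝ, θ = m0 / q := ⟨_, rfl⟩
  have ha0 : 0 < a := by rw [ha]; positivity
  have h1 : ∀ n : ℤ, 𝓕 (trf a θ) (n : ℝ) = ((a⁻¹ * fj Y (m0 + q * (-n : ℤ)) : ℝ) : ℂ) := by
    intro n
    rw [fourier_trf ha0]
    congr 2
    rw [← fj_neg]
    unfold fj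
    congr 2
    rw [ha, hθ]
    push_cast
    field_simp
    ring
  have hs := summable_fj_aux hY q hq m0
  have hs2 : Summable (fun n : ℤ => 𝓕 (trf a θ) (n : ℝ)) := by
    simp_rw [h1]
    have h2 : Summable (fun n : ℤ => (a⁻¹ * fj Y (m0 + q * (-n : ℤ)) : ℝ)) := by
      apply Summable.mul_left
      exact (Equiv.neg ℤ).summable_iff.2 hs
    exact Complex.hasSum_ofReal.2 h2.hasSum |>.summable
  have hO : IsBigO (cocompact ℝ) (trf a θ) fun x : ℝ => |x| ^ (-(2:ℝ)) := by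
    have h3 : trf a θ =ᶠ[cocompact ℝ] fun _ => (0:ℂ) := by
      filter_upwards [(isCompact_closedBall (0:ℝ) (1 / a)).compl_mem_cocompact] with x hx
      rw [mem_compl_iff, mem_closedBall_zero_iff, Real.norm_eq_abs, not_le] at hx
      exact trf_zero ha0 hx.le
    exact h3.trans_isBigO (isBigO_zero _ _)
  have hP := Real.tsum_eq_tsum_fourier_of_rpow_decay_of_summable (trf_cont a θ) one_lt_two hO hs2 0
  simp only [zero_add, h1] at hP
  have hP2 : ∑' n : ℤ, trf a θ n = ∑' n : ℤ, ((a⁻¹ * fj Y (m0 + q * (-n : ℤ)) : ℝ) : ℂ) := by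
    rw [hP]
    apply tsum_congr
    intro n
    simp
  have h4 : ∑' n : ℤ, ((a⁻¹ * fj Y (m0 + q * (-n : ℤ)) : ℝ) : ℂ) = ((a⁻¹ * ∑' n : ℤ, fj Y (m0 + q * n) : ℝ) : ℂ) := by
    rw [← Complex.ofReal_tsum, tsum_mul_left]
    congr 2
    exact (Equiv.neg ℤ).tsum_eq (fun n : ℤ => fj Y (m0 + q * n))
  have h5 : ∑' n : ℤ, trf a θ n = ∑ η ∈ Finset.Icc (-(B : ℤ)) B, trf a θ η := by
    apply tsum_eq_sum
    intro n hn
    apply trf_zero ha0
    have h6 : (B : ℤ) < |n| := by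
      rw [Finset.mem_Icc, not_and_or, not_le, not_le] at hn
      rcases hn with h | h
      · rw [lt_abs]; right; linarith
      · exact lt_of_lt_of_le h (le_abs_self n)
    have h7 : (B : ℝ) < |(n : ℝ)| := by exact_mod_cast h6
    have h8 : 1 / a = q / Y := by rw [ha]; field_simp
    rw [h8]
    linarith
  rw [h5, h4] at hP2
  have h9 : ((∑' n : ℤ, fj Y (m0 + q * n) : ℝ) : ℂ) = (a : ℂ) * ((a⁻¹ * ∑' n : ℤ, fj Y (m0 + q * n) : ℝ) : ℂ) := by
    rw [← Complex.ofReal_mul, mul_inv_cancel_left₀ ha0.ne']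
  rw [h9, ← hP2, ha]
  congr 1
  apply Finset.sum_congr rfl
  intro η _
  unfold trf
  congr 2
  · congr 1
    ring
  · rw [hθ]
    push_cast
    ring

/-- exact value for moduli at most `Y` -/
theorem fj_tsum_of_le {Y : ℝ} (q : ℕ) (hq : 0 < q) (hY : (q : ℝ) ≤ Y) (m0 : ℤ) :
    ∑' n : ℤ, fj Y (m0 + q * n) = Y / q := by
  have hq0 : (0:ℝ) < q := by exact_mod_cast hq
  have hY0 : 0 < Y := hq0.trans_le hY
  have h := fj_tsum hY0 q hq m0 1 (by rw [Nat.cast_one, div_le_one hY0]; exact hY)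
  have h1 : Finset.Icc (-((1:ℕ) : ℤ)) ((1:ℕ) : ℤ) = {-1, 0, 1} := by decide
  rw [h1, Finset.sum_insert (by decide), Finset.sum_insert (by decide), Finset.sum_singleton] at h
  have h2 : tri (((-1 : ℤ) : ℝ) * Y / q) = 0 := by
    apply tri_eq_zero
    rw [Int.cast_neg, Int.cast_one, neg_one_mul, neg_div, abs_neg, abs_of_pos (by positivity), le_div_iff₀ hq0, one_mul]
    exact hY
  have h3 : tri (((1 : ℤ) : ℝ) * Y / q) = 0 := by
    apply tri_eq_zero
    rw [Int.cast_one, one_mul, abs_of_pos (by positivity), le_div_iff₀ hq0, one_mul]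
    exact hY
  have h4 : tri (((0 : ℤ) : ℝ) * Y / q) = 1 := by
    rw [Int.cast_zero, zero_mul, zero_div, tri_zero]
  rw [h2, h3, h4] at h
  have h5 : ((∑' n : ℤ, fj Y (m0 + q * n) : ℝ) : ℂ) = ((Y / q : ℝ) : ℂ) := by
    rw [h]
    simp
  exact_mod_cast h5

lemma sum_abs_lin (a : ℝ) (N : ℕ) :
    ∑ η ∈ Finset.Icc (-(N : ℤ)) N, (1 - |(η : ℝ)| * a) = 2 * N + 1 - a * (N * (N + 1)) := by
  induction N with
  | zero => simp
  | succ n ih =>
    have e : Finset.Icc (-((n + 1 : ℕ) : ℤ)) ((n + 1 : ℕ) : ℤ) =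
        insert ((n : ℤ) + 1) (insert (-((n : ℤ) + 1)) (Finset.Icc (-(n : ℤ)) n)) := by
      ext x
      simp only [Finset.mem_Icc, Finset.mem_insert]
      push_cast
      omega
    rw [e, Finset.sum_insert, Finset.sum_insert, ih]
    · push_cast
      have h2 : |((n:ℝ) + 1)| = n + 1 := abs_of_pos (by positivity)
      have h3 : |(-((n:ℝ) + 1))| = n + 1 := by rw [abs_neg, h2]
      simp only [h2, h3]
      ring
    · rw [Finset.mem_Icc]
      omega
    · rw [Finset.mem_insert, Finset.mem_Icc]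
      omega

/-- general upper bound -/
theorem fj_tsum_le {Y : ℝ} (hY : 0 < Y) (q : ℕ) (hq : 0 < q) (m0 : ℤ) :
    ∑' n : ℤ, fj Y (m0 + q * n) ≤ Y / q + 1 := by
  have hq0 : (0:ℝ) < q := by exact_mod_cast hq
  obtain ⟨a, ha⟩ : ∃ a : ℝ, a = Y / q := ⟨_, rfl⟩
  have ha0 : 0 < a := by rw [ha]; positivity
  -- the number of frequencies
  obtain ⟨N, hN⟩ : ∃ N : ℕ, N = ⌊(q : ℝ) / Y⌋₊ := ⟨_, rfl⟩
  have hN1 : (N : ℝ) ≤ q / Y := by rw [hN]; exact Nat.floor_le (by positivity)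
  have hN2 : (q : ℝ) / Y ≤ (N + 1 : ℕ) := by
    rw [hN]
    push_cast
    exact (Nat.lt_floor_add_one _).le
  have hNa : N * a ≤ 1 := by
    rw [ha]
    calc (N:ℝ) * (Y / q) ≤ (q / Y) * (Y / q) := mul_le_mul_of_nonneg_right hN1 (by positivity)
      _ = 1 := by field_simp
  have h := fj_tsum hY q hq m0 (N + 1) hN2
  have h0 : 0 ≤ ∑' n : ℤ, fj Y (m0 + q * n) := tsum_nonneg fun n => fj_nonneg _ _
  have h1 : ∑' n : ℤ, fj Y (m0 + q * n) = ‖((∑' n : ℤ, fj Y (m0 + q * n) : ℝ) : ℂ)‖ := by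
    rw [Complex.norm_real, Real.norm_of_nonneg h0]
  rw [h1, h, norm_mul, Complex.norm_real, Real.norm_of_nonneg (by positivity : 0 ≤ Y / q)]
  have h2 : ∑ η ∈ Finset.Icc (-((N + 1 : ℕ) : ℤ)) ((N + 1 : ℕ) : ℤ),
      (tri (η * Y / q) : ℂ) * Complex.exp (2 * Real.pi * Complex.I * (η * m0 / q)) =
      ∑ η ∈ Finset.Icc (-(N : ℤ)) N,
      (tri (η * Y / q) : ℂ) * Complex.exp (2 * Real.pi * Complex.I * (η * m0 / q)) := by
    symm
    apply Finset.sum_subset
    · intro x hx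
      rw [Finset.mem_Icc] at hx ⊢
      push_cast
      constructor <;> linarith [hx.1, hx.2]
    · intro x hx hx2
      rw [Finset.mem_Icc] at hx hx2
      push_cast at hx
      have h3 : (N : ℤ) + 1 ≤ |x| := by
        by_contra hcon
        rw [not_le] at hcon
        have h4 : |x| ≤ N := by omega
        exact hx2 (abs_le.1 h4)
      have h5 : (N : ℝ) + 1 ≤ |(x : ℝ)| := by exact_mod_cast h3
      rw [tri_eq_zero, Complex.ofReal_zero, zero_mul]
      rw [abs_div, abs_mul, abs_of_pos hY, abs_of_pos hq0, le_div_iff₀ hq0, one_mul]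
      push_cast at hN2
      rw [div_le_iff₀ hY] at hN2
      nlinarith
  rw [h2]
  have h3 : ‖∑ η ∈ Finset.Icc (-(N : ℤ)) N,
      (tri (η * Y / q) : ℂ) * Complex.exp (2 * Real.pi * Complex.I * (η * m0 / q))‖ ≤ 2 * N + 1 - a * (N * (N + 1)) := by
    rw [← sum_abs_lin]
    refine norm_sum_le_of_le _ fun η hη => ?_
    have e1 : (2 * Real.pi * Complex.I * (η * m0 / q) : ℂ) = ((2 * Real.pi * (η * m0 / q) : ℝ) : ℂ) * Complex.I := by
      push_cast
      ring
    rw [norm_mul, e1, Complex.norm_exp_ofReal_mul_I, mul_one, Complex.norm_real, Real.norm_of_nonneg (tri_nonneg _)]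
    rw [Finset.mem_Icc, ← abs_le] at hη
    have h6 : |(η : ℝ)| ≤ N := by exact_mod_cast hη
    have h7 : |(η : ℝ) * Y / q| = |(η : ℝ)| * a := by
      rw [abs_div, abs_mul, abs_of_pos hY, abs_of_pos hq0, ha]
      ring
    rw [tri_of_le, h7]
    rw [h7]
    exact (mul_le_mul_of_nonneg_right h6 ha0.le).trans hNa
  refine (mul_le_mul_of_nonneg_left h3 (by positivity)).trans ?_
  rw [← ha]
  have hN0 : (0:ℝ) ≤ N := N.cast_nonneg
  nlinarith [sq_nonneg (1 - N * a), mul_nonneg (mul_nonneg ha0.le ha0.le) hN0]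

/-- all integers in a residue class -/
theorem fj_tsum_mod {Y : ℝ} (q : ℕ) (hq : 0 < q) (m0 : ℤ) :
    ∑' m : ℤ, (if m ≡ m0 [ZMOD q] then fj Y m else 0) = ∑' n : ℤ, fj Y (m0 + q * n) := by
  have hq0 : (q : ℤ) ≠ 0 := by exact_mod_cast hq.ne'
  have hinj : Function.Injective (fun n : ℤ => m0 + q * n) := by
    intro a b h
    exact mul_left_cancel₀ hq0 (add_left_cancel h)
  have h1 := hinj.tsum_eq (f := fun m : ℤ => if m ≡ m0 [ZMOD q] then fj Y m else 0) (by
    intro m hm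
    rw [Function.mem_support] at hm
    have h2 : m ≡ m0 [ZMOD q] := by
      by_contra hc
      exact hm (if_neg hc)
    obtain ⟨k, hk⟩ := (Int.modEq_iff_dvd.1 h2.symm)
    exact ⟨k, by simp only; linarith⟩)
  rw [← h1]
  apply tsum_congr
  intro n
  have h3 : m0 + q * n ≡ m0 [ZMOD q] := by
    rw [Int.modEq_iff_dvd]
    exact ⟨-n, by ring⟩
  rw [if_pos h3]
  push_cast
  rfl

theorem fj_summable_mod {Y : ℝ} (hY : 0 < Y) (P : ℤ → Prop) [DecidablePred P] :
    Summable (fun m : ℤ => if P m then fj Y m else 0) := by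
  have h := summable_fj_aux hY 1 one_pos 0
  refine Summable.of_nonneg_of_le (fun m => ?_) (fun m => ?_) h
  · split_ifs
    · exact fj_nonneg _ _
    · exact le_rfl
  · have e : fj Y ((0 : ℤ) + (1 : ℕ) * (m : ℝ)) = fj Y m := by simp
    rw [e]
    split_ifs
    · exact le_rfl
    · exact fj_nonneg _ _

lemma FF_eq (Y : ℝ) (η : ℤ) (q : ℝ) (hY : 0 < Y) (hq : 0 < q) : FF Y η q = Y / q * tri (η * Y / q) := by
  unfold FF tri
  congr 2
  rw [abs_div, abs_mul, abs_of_pos hY, abs_of_pos hq]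
  ring

/-- FJ -/
theorem fJ : Stmt_FJ := by
  intro Y hY q hq m0 H hH
  have hq0 : (0:ℝ) < q := by exact_mod_cast hq
  have h := fj_tsum hY q hq m0 H hH
  have hs := (Complex.hasSum_ofReal.2 (summable_fj_aux hY q hq m0).hasSum)
  rw [h] at hs
  convert hs using 1
  rw [Finset.mul_sum]
  apply Finset.sum_congr rfl
  intro η _
  rw [FF_eq Y η q hY hq0]
  unfold ee
  push_cast
  rw [mul_assoc]
  congr 2
  congr 1
  ring

/-- the lower bound of the Fejer weight -/
theorem fj_lower : Stmt_fj_lower := by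
  intro Y m hY hm
  exact fj_ge hY hm

/-- FJ for moduli at most `Y` -/
theorem fJ_exact : Stmt_FJ_exact := by
  intro Y q hq hqY m0
  have hq0 : (0:ℝ) < q := by exact_mod_cast hq
  have h := (summable_fj_aux (hq0.trans_le hqY) q hq m0).hasSum
  rwa [fj_tsum_of_le q hq hqY m0] at h

/-- FJ, upper bound -/
theorem fJ_le : Stmt_FJ_le := by
  intro Y hY q hq m0
  exact ⟨summable_fj_aux hY q hq m0, fj_tsum_le hY q hq m0⟩

end Pool.Agent.Helper49.AP
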