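import Pool.Agent.Helper56.AP.Stmts

/-!
# A': block FS12 (`FS_b1b2`), from `lamR_eq`, `xi_bd`, BT and BH
-/

set_option autoImplicit false
open Filter Topology

namespace Pool.Agent.AP

private lemma sum_dvd' (N₁ N₂ d : ℕ) (hd : 1 ≤ d) (g : ℕ → ℝ) :
    ∑ n ∈ Finset.Ioc N₁ N₂, (if d ∣ n then g n else 0) = ∑ m ∈ Finset.Ioc (N₁ / d) (N₂ / d), g (d * m) := by
  rw [← Finset.sum_filter]
  symm
  apply Finset.sum_nbij (fun m => d * m)
  · intro m hm
    rw [Finset.mem_Ioc] at hm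
    rw [Finset.mem_filter, Finset.mem_Ioc]
    refine ⟨⟨?_, ?_⟩, Dvd.intro m rfl⟩
    · have := (Nat.div_lt_iff_lt_mul (show 0 < d by omega)).1 hm.1
      rwa [mul_comm] at this
    · have := (Nat.le_div_iff_mul_le (show 0 < d by omega)).1 hm.2
      rwa [mul_comm] at this
  · intro a _ b _ h
    exact Nat.eq_of_mul_eq_mul_left (by omega) h
  · intro n hn
    rw [Finset.mem_coe, Finset.mem_filter, Finset.mem_Ioc] at hn
    obtain ⟨⟨h1, h2⟩, m, rfl⟩ := hn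
    refine ⟨m, ?_, rfl⟩
    rw [Finset.mem_coe, Finset.mem_Ioc]
    rw [mul_comm] at h1 h2
    exact ⟨(Nat.div_lt_iff_lt_mul (show 0 < d by omega)).2 h1, (Nat.le_div_iff_mul_le (show 0 < d by omega)).2 h2⟩
  · intro m _
    rfl

private lemma lam_exp (hl : Stmt_lamR_eq) {R Rm : ℕ} (h : R ≤ Rm) (n : ℤ) :
    lamR R n = ∑ d ∈ Finset.Icc 1 Rm, (if (d : ℤ) ∣ n then (if d ≤ R then xi R d else 0) else 0) := by
  rw [hl, Finset.sum_filter]
  rw [← Finset.sum_subset (Finset.Icc_subset_Icc_right h : Finset.Icc 1 R ⊆ Finset.Icc 1 Rm)]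
  · apply Finset.sum_congr rfl
    intro d hd
    rw [Finset.mem_Icc] at hd
    rw [if_pos hd.2]
  · intro d hd hd2
    rw [Finset.mem_Icc] at hd hd2
    have : ¬ d ≤ R := fun h3 => hd2 ⟨hd.1, h3⟩
    rw [if_neg this, ite_self]

/-- coefficients of `b_1` -/
private noncomputable def vd (R1 R0 d : ℕ) : ℝ := (if d ≤ R1 then xi R1 d else 0) - (if d ≤ R0 then xi R0 d else 0)

private lemma b1_exp (hl : Stmt_lamR_eq) {R1 R0 Rm : ℕ} (h1 : R1 ≤ Rm) (h0 : R0 ≤ Rm) (n : ℤ) :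
    lamR R1 n - lamR R0 n = ∑ d ∈ Finset.Icc 1 Rm, (if (d : ℤ) ∣ n then vd R1 R0 d else 0) := by
  rw [lam_exp hl h1, lam_exp hl h0, ← Finset.sum_sub_distrib]
  apply Finset.sum_congr rfl
  intro d _
  unfold vd
  split_ifs <;> simp

private lemma vd_zero {R1 R0 Rm d : ℕ} (h1 : R1 ≤ Rm) (h0 : R0 ≤ Rm) (hd : Rm < d) : vd R1 R0 d = 0 := by
  unfold vd
  rw [if_neg (by omega), if_neg (by omega), sub_zero]

private lemma open_sum (hl : Stmt_lamR_eq) {R1 R0 Rm : ℕ} (h1 : R1 ≤ Rm) (h0 : R0 ≤ Rm) (N₁ N₂ : ℕ) (G : ℕ → ℝ) :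
    ∑ n ∈ Finset.Ioc N₁ N₂, (lamR R1 (n : ℤ) - lamR R0 (n : ℤ)) * G n =
      ∑ d ∈ Finset.Icc 1 Rm, vd R1 R0 d * ∑ m ∈ Finset.Ioc (N₁ / d) (N₂ / d), G (d * m) := by
  simp_rw [b1_exp hl h1 h0, Finset.sum_mul]
  rw [Finset.sum_comm]
  apply Finset.sum_congr rfl
  intro d hd
  rw [Finset.mem_Icc] at hd
  rw [← sum_dvd' N₁ N₂ d hd.1 G, Finset.mul_sum]
  apply Finset.sum_congr rfl
  intro n _
  by_cases h : d ∣ n
  · rw [if_pos h, if_pos (Int.natCast_dvd_natCast.2 h)]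
  · rw [if_neg h, if_neg (fun h2 => h (Int.natCast_dvd_natCast.1 h2))]
    simp

private lemma dyad {N₀ : ℕ} (F : ℕ → ℝ) (E B : ℝ)
    (h : ∀ P : ℕ, N₀ ≤ P → (2 * P : ℝ) ≤ B → |∑ n ∈ Finset.Ioc P (2 * P), F n| ≤ E) :
    ∀ J : ℕ, ((N₀ * 2 ^ J : ℕ) : ℝ) ≤ B → |∑ n ∈ Finset.Ioc N₀ (N₀ * 2 ^ J), F n| ≤ J * E := by
  intro J
  induction J with
  | zero => intro _; simp
  | succ J ih =>
    intro hB
    have e : N₀ * 2 ^ (J + 1) = 2 * (N₀ * 2 ^ J) := by ring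
    have hP : N₀ ≤ N₀ * 2 ^ J := Nat.le_mul_of_pos_right _ (by positivity)
    have h1 : ((N₀ * 2 ^ J : ℕ) : ℝ) ≤ B := by
      refine le_trans ?_ hB
      exact_mod_cast (by rw [e]; omega : N₀ * 2 ^ J ≤ N₀ * 2 ^ (J + 1))
    have h2 := ih h1
    have h3 := h (N₀ * 2 ^ J) hP (by rw [e] at hB; push_cast at hB ⊢; exact hB)
    rw [e, ← Finset.sum_Ioc_consecutive F hP (by omega : N₀ * 2 ^ J ≤ 2 * (N₀ * 2 ^ J))]
    refine (abs_add_le _ _).trans ?_
    push_cast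
    linarith

private lemma exists_dyad {N₀ R : ℕ} (h0 : 1 ≤ N₀) (h1 : N₀ ≤ R) : ∃ J : ℕ, R < N₀ * 2 ^ J ∧ N₀ * 2 ^ J ≤ 2 * R ∧ 2 ^ J ≤ 2 * R := by
  classical
  have hex : ∃ J : ℕ, R < N₀ * 2 ^ J := ⟨R, lt_of_lt_of_le Nat.lt_two_pow_self (Nat.le_mul_of_pos_left _ h0)⟩
  obtain ⟨J, hJ⟩ : ∃ J, J = Nat.find hex := ⟨_, rfl⟩
  have h2 : R < N₀ * 2 ^ J := by rw [hJ]; exact Nat.find_spec hex
  have h3 : J ≠ 0 := by
    rintro rfl
    rw [pow_zero, mul_one] at h2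
    omega
  obtain ⟨i, rfl⟩ := Nat.exists_eq_succ_of_ne_zero h3
  have h4 : ¬ R < N₀ * 2 ^ i := Nat.find_min hex (by rw [← hJ]; exact Nat.lt_succ_self i)
  rw [not_lt] at h4
  have h5 : N₀ * 2 ^ (i + 1) ≤ 2 * R := by
    have : N₀ * 2 ^ (i + 1) = 2 * (N₀ * 2 ^ i) := by ring
    omega
  exact ⟨i + 1, h2, h5, (Nat.le_mul_of_pos_left _ h0).trans h5⟩

/-- the core estimate -/
private lemma core (hl : Stmt_lamR_eq) (hx : Stmt_xi_bd) (hT : Stmt_BT) (hH : Stmt_BH) {κ2 e : ℝ} (he : 0 < e) (h2 : κ2 ≤ 1 / 2) :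
    ∀ᶠ T : ℝ in atTop, ∀ k : ℤ, k ≠ 0 → |(k : ℝ)| ≤ T ^ (1 / 1000000 : ℝ) → ∀ N₁ N₂ : ℕ,
      (N₂ : ℝ) ≤ T ^ (1 + 1 / 2000000 : ℝ) → |∑ n ∈ Finset.Ioc N₁ N₂, b1 κ2 e T n * bF T (n + k)| ≤ T ^ (1 - 1 / 1000 : ℝ) := by
  obtain ⟨C, hC, hx⟩ := hx
  have e1 : ∀ᶠ T : ℝ in atTop, 1 + Real.log T ≤ T ^ (1 / 4000 : ℝ) := by
    have a1 : (fun T : ℝ => 1 + Real.log T) =o[atTop] fun T : ℝ => T ^ (1 / 4000 : ℝ) := by
      apply Asymptotics.IsLittleO.add _ (isLittleO_log_rpow_atTop (by norm_num))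
      rw [Asymptotics.isLittleO_const_left]
      right
      exact tendsto_norm_atTop_atTop.comp (tendsto_rpow_atTop (by norm_num))
    filter_upwards [a1.bound (show (0:ℝ) < 1 by norm_num), eventually_gt_atTop (0:ℝ)] with T a2 a3
    rw [one_mul, Real.norm_of_nonneg (Real.rpow_nonneg a3.le _)] at a2
    exact (le_abs_self _).trans a2
  have e2 : ∀ᶠ T : ℝ in atTop, 100 * (C + 1) ≤ T ^ (1 / 4000 : ℝ) :=
    (tendsto_rpow_atTop (by norm_num)).eventually_ge_atTop _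
  have e3 : ∀ᶠ T : ℝ in atTop, 4 ≤ T ^ (1 / 2000000 : ℝ) :=
    (tendsto_rpow_atTop (by norm_num)).eventually_ge_atTop _
  filter_upwards [hT, hH, e1, e2, e3, eventually_ge_atTop (4:ℝ)] with T hT hH q1 q2 q3 hT4 k hk0 hk N₁ N₂ hN₂
  have hT0 : 0 < T := by linarith
  have hT1 : 1 ≤ T := by linarith
  have hlog : 0 ≤ Real.log T := Real.log_nonneg hT1
  rcases lt_or_ge N₂ N₁ with hN | hN
  · rw [Finset.Ioc_eq_empty (by omega), Finset.sum_empty, abs_zero]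
    positivity
  have hmono : ∀ a b : ℝ, a ≤ b → T ^ a ≤ T ^ b := fun a b h => Real.rpow_le_rpow_of_exponent_le hT1 h
  -- parameters
  obtain ⟨R1, hR1⟩ : ∃ R1, R1 = ⌊T ^ (1 / 2 - e)⌋₊ := ⟨_, rfl⟩
  obtain ⟨R0, hR0⟩ : ∃ R0, R0 = ⌊T ^ κ2⌋₊ := ⟨_, rfl⟩
  obtain ⟨R, hR⟩ : ∃ R, R = ⌊T ^ (1 / 2 : ℝ)⌋₊ := ⟨_, rfl⟩
  obtain ⟨N₀, hN₀⟩ : ∃ N₀, N₀ = ⌊T ^ (46 / 100 : ℝ)⌋₊ := ⟨_, rfl⟩
  have hR1R : R1 ≤ R := by rw [hR1, hR]; exact Nat.floor_le_floor (hmono _ _ (by linarith))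
  have hR0R : R0 ≤ R := by rw [hR0, hR]; exact Nat.floor_le_floor (hmono _ _ (by linarith))
  have hN₀R : N₀ ≤ R := by rw [hN₀, hR]; exact Nat.floor_le_floor (hmono _ _ (by norm_num))
  have hRT : (R : ℝ) ≤ T ^ (1 / 2 : ℝ) := by rw [hR]; exact Nat.floor_le (by positivity)
  have hRT1 : (R : ℝ) ≤ T := hRT.trans (by
    calc T ^ (1 / 2 : ℝ) ≤ T ^ (1 : ℝ) := hmono _ _ (by norm_num)
      _ = T := Real.rpow_one T)
  have hN₀T : (N₀ : ℝ) ≤ T ^ (46 / 100 : ℝ) := by rw [hN₀]; exact Nat.floor_le (by positivity)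
  have h46 : (1:ℝ) ≤ T ^ (46 / 100 : ℝ) := Real.one_le_rpow hT1 (by norm_num)
  have hN₀1 : 1 ≤ N₀ := by rw [hN₀]; exact Nat.le_floor (by simpa using h46)
  have hN₀2 : T ^ (45 / 100 : ℝ) ≤ N₀ := by
    have a1 : T ^ (46 / 100 : ℝ) < N₀ + 1 := by rw [hN₀]; exact Nat.lt_floor_add_one _
    have a2 : T ^ (46 / 100 : ℝ) = T ^ (45 / 100 : ℝ) * T ^ (1 / 100 : ℝ) := by
      rw [← Real.rpow_add hT0]; norm_num
    have a3 : 4 ≤ T ^ (1 / 100 : ℝ) := q3.trans (hmono _ _ (by norm_num))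
    have a4 : 1 ≤ T ^ (45 / 100 : ℝ) := Real.one_le_rpow hT1 (by norm_num)
    nlinarith
  -- the coefficients
  obtain ⟨K, hK⟩ : ∃ K, K = 2 * (C * (1 + Real.log T) ^ 2) := ⟨_, rfl⟩
  have hK0 : 0 < K := by rw [hK]; positivity
  have hxiT : ∀ Q d : ℕ, 1 ≤ d → d ≤ Q → Q ≤ R → |xi Q d| ≤ C * (1 + Real.log T) ^ 2 := by
    intro Q d h3 h4 h5
    refine (hx Q d h3 h4).trans ?_
    apply mul_le_mul_of_nonneg_left _ hC.le
    have h6 : (1:ℝ) ≤ Q := by exact_mod_cast h3.trans h4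
    have h7 : Real.log Q ≤ Real.log T := by
      apply Real.log_le_log (by linarith)
      have : (Q:ℝ) ≤ R := by exact_mod_cast h5
      linarith
    have h8 : 0 ≤ Real.log Q := Real.log_nonneg h6
    apply pow_le_pow_left₀ (by linarith)
    linarith
  have hv : ∀ d : ℕ, 1 ≤ d → |vd R1 R0 d| ≤ K := by
    intro d hd
    unfold vd
    have b1 : |(if d ≤ R1 then xi R1 d else 0)| ≤ C * (1 + Real.log T) ^ 2 := by
      split_ifs with h3
      · exact hxiT R1 d hd h3 hR1R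
      · rw [abs_zero]; positivity
    have b0 : |(if d ≤ R0 then xi R0 d else 0)| ≤ C * (1 + Real.log T) ^ 2 := by
      split_ifs with h3
      · exact hxiT R0 d hd h3 hR0R
      · rw [abs_zero]; positivity
    rw [hK]
    refine (abs_sub _ _).trans ?_
    linarith
  -- opening
  obtain ⟨G, hG⟩ : ∃ G : ℕ → ℝ, G = fun n : ℕ => bF T ((n : ℤ) + k) := ⟨_, rfl⟩
  have hopen : ∑ n ∈ Finset.Ioc N₁ N₂, b1 κ2 e T n * bF T (n + k) =
      ∑ d ∈ Finset.Icc 1 R, vd R1 R0 d * ∑ m ∈ Finset.Ioc (N₁ / d) (N₂ / d), G (d * m) := by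
    rw [← open_sum hl hR1R hR0R N₁ N₂ G]
    apply Finset.sum_congr rfl
    intro n _
    rw [hG]
    unfold b1
    rw [hR1, hR0]
  have hsplit : ∑ d ∈ Finset.Icc 1 R, vd R1 R0 d * ∑ m ∈ Finset.Ioc (N₁ / d) (N₂ / d), G (d * m) =
      ∑ d ∈ Finset.Icc 1 N₀, vd R1 R0 d * ∑ m ∈ Finset.Ioc (N₁ / d) (N₂ / d), G (d * m) +
      ∑ d ∈ Finset.Ioc N₀ R, vd R1 R0 d * ∑ m ∈ Finset.Ioc (N₁ / d) (N₂ / d), G (d * m) := by
    have e4 : ∀ N : ℕ, Finset.Icc 1 N = Finset.Ioc 0 N := by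
      intro N; ext x; rw [Finset.mem_Icc, Finset.mem_Ioc]; omega
    rw [e4, e4, Finset.sum_Ioc_consecutive _ (Nat.zero_le _) hN₀R]
  -- small d
  have hsmall : |∑ d ∈ Finset.Icc 1 N₀, vd R1 R0 d * ∑ m ∈ Finset.Ioc (N₁ / d) (N₂ / d), G (d * m)| ≤
      K * (T ^ (46 / 100 : ℝ) * T ^ (5002 / 10000 : ℝ) + T ^ (1 + 1 / 2000000 : ℝ) * T ^ (-(8 / 1000) : ℝ) * (1 + Real.log T)) := by
    have s1 : ∀ d ∈ Finset.Icc 1 N₀, |vd R1 R0 d * ∑ m ∈ Finset.Ioc (N₁ / d) (N₂ / d), G (d * m)| ≤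
        K * (T ^ (5002 / 10000 : ℝ) + T ^ (1 + 1 / 2000000 : ℝ) * T ^ (-(8 / 1000) : ℝ) * (1 / d)) := by
      intro d hd
      rw [Finset.mem_Icc] at hd
      rw [abs_mul]
      have hd0 : (0:ℝ) < d := by exact_mod_cast hd.1
      have s2 := hT k d (N₁ / d) (N₂ / d) hk0 hk hd.1 (by
        have : (d : ℝ) ≤ N₀ := by exact_mod_cast hd.2
        refine this.trans (hN₀T.trans ?_)
        rw [← Real.rpow_natCast T 2]
        exact hmono _ _ (by norm_num)) (Nat.div_le_div_right hN)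
      have s3 : ∑ m ∈ Finset.Ioc (N₁ / d) (N₂ / d), G (d * m) = ∑ m ∈ Finset.Ioc (N₁ / d) (N₂ / d), bF T (d * m + k) := by
        apply Finset.sum_congr rfl
        intro m _
        rw [hG]
        push_cast
        rfl
      rw [s3]
      have s4 : ((N₂ / d : ℕ) : ℝ) ≤ T ^ (1 + 1 / 2000000 : ℝ) * (1 / d) := by
        calc ((N₂ / d : ℕ) : ℝ) ≤ (N₂ : ℝ) / d := Nat.cast_div_le
          _ = N₂ * (1 / d) := by ring
          _ ≤ _ := mul_le_mul_of_nonneg_right hN₂ (by positivity)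
      have s5 : ((N₂ / d : ℕ) : ℝ) * T ^ (-(8 / 1000) : ℝ) ≤ T ^ (1 + 1 / 2000000 : ℝ) * T ^ (-(8 / 1000) : ℝ) * (1 / d) := by
        calc ((N₂ / d : ℕ) : ℝ) * T ^ (-(8 / 1000) : ℝ) ≤ T ^ (1 + 1 / 2000000 : ℝ) * (1 / d) * T ^ (-(8 / 1000) : ℝ) :=
              mul_le_mul_of_nonneg_right s4 (by positivity)
          _ = _ := by ring
      exact mul_le_mul (hv d hd.1) (s2.trans (by linarith)) (abs_nonneg _) hK0.le
    refine (Finset.abs_sum_le_sum_abs _ _).trans ((Finset.sum_le_sum s1).trans ?_)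
    rw [← Finset.mul_sum]
    apply mul_le_mul_of_nonneg_left _ hK0.le
    rw [Finset.sum_add_distrib, Finset.sum_const, Nat.card_Icc, nsmul_eq_mul, ← Finset.mul_sum]
    apply add_le_add
    · apply mul_le_mul_of_nonneg_right _ (by positivity)
      simpa using hN₀T
    · apply mul_le_mul_of_nonneg_left _ (by positivity)
      have h3 : ∑ d ∈ Finset.Icc 1 N₀, (1:ℝ) / d ≤ 1 + Real.log N₀ := by
        have h4 := harmonic_le_one_add_log N₀
        rw [harmonic_eq_sum_Icc] at h4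
        push_cast at h4
        simpa [one_div] using h4
      refine h3.trans ?_
      have h5 : Real.log N₀ ≤ Real.log T := by
        apply Real.log_le_log (by exact_mod_cast hN₀1)
        have : (N₀:ℝ) ≤ R := by exact_mod_cast hN₀R
        linarith
      linarith
  -- large d
  obtain ⟨J, j1, j2, j3⟩ := exists_dyad hN₀1 hN₀R
  have hext : ∑ d ∈ Finset.Ioc N₀ R, vd R1 R0 d * ∑ m ∈ Finset.Ioc (N₁ / d) (N₂ / d), G (d * m) =
      ∑ d ∈ Finset.Ioc N₀ (N₀ * 2 ^ J), vd R1 R0 d * ∑ m ∈ Finset.Ioc (N₁ / d) (N₂ / d), G (d * m) := by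
    apply Finset.sum_subset
    · intro d hd
      rw [Finset.mem_Ioc] at hd ⊢
      omega
    · intro d hd hd2
      rw [Finset.mem_Ioc] at hd hd2
      rw [vd_zero hR1R hR0R (by omega), zero_mul]
  have hB2 : ((2 * R : ℕ) : ℝ) ≤ T ^ (51 / 100 : ℝ) := by
    push_cast
    have a2 : T ^ (51 / 100 : ℝ) = T ^ (1 / 2 : ℝ) * T ^ (1 / 100 : ℝ) := by
      rw [← Real.rpow_add hT0]; norm_num
    have a3 : 4 ≤ T ^ (1 / 100 : ℝ) := q3.trans (hmono _ _ (by norm_num))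
    have a4 : 0 ≤ T ^ (1 / 2 : ℝ) := by positivity
    nlinarith
  have hlarge : |∑ d ∈ Finset.Ioc N₀ (N₀ * 2 ^ J), vd R1 R0 d * ∑ m ∈ Finset.Ioc (N₁ / d) (N₂ / d), G (d * m)| ≤
      J * (K * T ^ (1 - 59 / 10000 : ℝ)) := by
    apply dyad _ _ (T ^ (51 / 100 : ℝ)) _ J
    · exact (by exact_mod_cast j2 : ((N₀ * 2 ^ J : ℕ) : ℝ) ≤ ((2 * R : ℕ) : ℝ)).trans hB2
    · intro P hP hPB
      have hP0 : 1 ≤ P := hN₀1.trans hP
      have hP0' : (0:ℝ) < P := by exact_mod_cast hP0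
      have l1 := hH k P (2 * P) (fun n => if P < n then N₁ / n else 0) (fun n => if P < n then N₂ / n else 0)
        (fun n => vd R1 R0 n / K * (if 1 ≤ n then 1 else 0)) hk0 hk (by omega) (by
          have : (N₀ : ℝ) ≤ P := by exact_mod_cast hP
          push_cast
          linarith) (by push_cast; exact hPB) (by
          intro n
          split_ifs
          · exact Nat.div_le_div_right hN
          · exact le_rfl) (by
          intro n
          split_ifs with h3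
          · have h4 : (P:ℝ) ≤ n := by exact_mod_cast h3.le
            have h5 : ((N₂ / n : ℕ) : ℝ) ≤ (N₂ : ℝ) / P :=
              Nat.cast_div_le.trans (div_le_div_of_nonneg_left (Nat.cast_nonneg _) hP0' h4)
            push_cast
            calc ((N₂ / n : ℕ) : ℝ) * (2 * P) ≤ (N₂ : ℝ) / P * (2 * P) := mul_le_mul_of_nonneg_right h5 (by positivity)
              _ = 2 * N₂ := by field_simp
              _ ≤ 2 * T ^ (1 + 1 / 2000000 : ℝ) := by linarith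
              _ ≤ T ^ (1 + 1 / 2000000 : ℝ) * T ^ (1 / 2000000 : ℝ) := by
                  have : 0 ≤ T ^ (1 + 1 / 2000000 : ℝ) := by positivity
                  nlinarith
              _ = T ^ (1 + 1 / 1000000 : ℝ) := by
                  rw [← Real.rpow_add hT0]; norm_num
          · rw [Nat.cast_zero, zero_mul]
            positivity) (by
          intro n
          split_ifs with h3
          · rw [mul_one, abs_div, abs_of_pos hK0, div_le_one hK0]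
            exact hv n h3
          · rw [mul_zero, abs_zero]
            exact zero_le_one)
      have l2 : ∑ d ∈ Finset.Ioc P (2 * P), vd R1 R0 d * ∑ m ∈ Finset.Ioc (N₁ / d) (N₂ / d), G (d * m) =
          K * ∑ n ∈ Finset.Ioc P (2 * P), (vd R1 R0 n / K * (if 1 ≤ n then 1 else 0)) *
            ∑ m ∈ Finset.Ioc (if P < n then N₁ / n else 0) (if P < n then N₂ / n else 0), bF T (n * m + k) := by
        rw [Finset.mul_sum]
        apply Finset.sum_congr rfl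
        intro n hn
        rw [Finset.mem_Ioc] at hn
        rw [if_pos (by omega : 1 ≤ n), if_pos hn.1, if_pos hn.1, mul_one, ← mul_assoc, mul_div_cancel₀ _ hK0.ne']
        congr 1
        apply Finset.sum_congr rfl
        intro m _
        rw [hG]
        push_cast
        rfl
      rw [l2, abs_mul, abs_of_pos hK0]
      exact mul_le_mul_of_nonneg_left l1 hK0.le
  -- the number of dyadic blocks
  have hJ : (J : ℝ) ≤ 4 * (1 + Real.log T) := by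
    have h3 : ((2 ^ J : ℕ) : ℝ) ≤ ((2 * R : ℕ) : ℝ) := by exact_mod_cast j3
    push_cast at h3
    have h4 : Real.log ((2:ℝ) ^ J) ≤ Real.log (2 * T) := Real.log_le_log (by positivity) (by linarith)
    rw [Real.log_pow, Real.log_mul (by norm_num) hT0.ne'] at h4
    have h5 := Real.log_two_gt_d9
    have h6 := Real.log_two_lt_d9
    have h7 : (0:ℝ) ≤ J := J.cast_nonneg
    nlinarith
  -- the end
  rw [hopen, hsplit, hext]
  refine (abs_add_le _ _).trans ((add_le_add hsmall hlarge).trans ?_)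
  have hL3 : 100 * (C + 1) * (1 + Real.log T) ^ 3 ≤ T ^ (1 / 1000 : ℝ) := by
    calc 100 * (C + 1) * (1 + Real.log T) ^ 3 ≤ T ^ (1 / 4000 : ℝ) * (T ^ (1 / 4000 : ℝ)) ^ 3 := by
          apply mul_le_mul q2 _ (by positivity) (by positivity)
          exact pow_le_pow_left₀ (by linarith) q1 3
      _ = T ^ (1 / 1000 : ℝ) := by
          rw [← Real.rpow_natCast, ← Real.rpow_mul hT0.le, ← Real.rpow_add hT0]
          norm_num
  obtain ⟨L, hLdef⟩ : ∃ L, L = 1 + Real.log T := ⟨_, rfl⟩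
  have hL1 : 1 ≤ L := by rw [hLdef]; linarith
  rw [← hLdef] at hL3 hJ hK ⊢
  have t1 : T ^ (46 / 100 : ℝ) * T ^ (5002 / 10000 : ℝ) ≤ T ^ (1 - 59 / 10000 : ℝ) := by
    rw [← Real.rpow_add hT0]
    exact hmono _ _ (by norm_num)
  have t2 : T ^ (1 + 1 / 2000000 : ℝ) * T ^ (-(8 / 1000) : ℝ) ≤ T ^ (1 - 59 / 10000 : ℝ) := by
    rw [← Real.rpow_add hT0]
    exact hmono _ _ (by norm_num)
  obtain ⟨X, hX⟩ : ∃ X, X = T ^ (1 - 59 / 10000 : ℝ) := ⟨_, rfl⟩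
  have hX0 : 0 < X := by rw [hX]; positivity
  rw [← hX] at t1 t2 ⊢
  have t3 : K * (T ^ (46 / 100 : ℝ) * T ^ (5002 / 10000 : ℝ) + T ^ (1 + 1 / 2000000 : ℝ) * T ^ (-(8 / 1000) : ℝ) * L) + J * (K * X) ≤
      K * (X + X * L) + 4 * L * (K * X) := by
    apply add_le_add
    · apply mul_le_mul_of_nonneg_left _ hK0.le
      apply add_le_add t1
      exact mul_le_mul_of_nonneg_right t2 (by linarith)
    · exact mul_le_mul_of_nonneg_right hJ (by positivity)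
  refine t3.trans ?_
  have t4 : K * (X + X * L) + 4 * L * (K * X) ≤ 100 * (C + 1) * L ^ 3 * X := by
    have h3 : X + X * L ≤ 2 * (L * X) := by nlinarith
    have h4 : K * (X + X * L) + 4 * L * (K * X) ≤ 6 * K * L * X := by nlinarith [mul_le_mul_of_nonneg_left h3 hK0.le]
    refine h4.trans ?_
    rw [hK]
    have h5 : 0 ≤ L ^ 3 * X := by positivity
    nlinarith [mul_nonneg hC.le h5]
  refine t4.trans ((mul_le_mul_of_nonneg_right hL3 hX0.le).trans ?_)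
  rw [hX, ← Real.rpow_add hT0]
  exact hmono _ _ (by norm_num)

/-- FS12 -/
theorem FS_b1b2_of (hl : Stmt_lamR_eq) (hx : Stmt_xi_bd) (hT : Stmt_BT) (hH : Stmt_BH) : Stmt_FS_b1b2 := by
  intro κ2 e h2 he h
  refine ⟨1 / 10000000, 1 / 1000, by norm_num, by norm_num, ?_, ?_⟩
  · filter_upwards [core hl hx hT hH he (by linarith : κ2 ≤ 1 / 2), eventually_ge_atTop (1:ℝ)] with T hc hT1 k hk0 hk N₁ N₂ _ hN₂
    exact hc k hk0 (hk.trans (Real.rpow_le_rpow_of_exponent_le hT1 (by norm_num))) N₁ N₂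
      (hN₂.trans (Real.rpow_le_rpow_of_exponent_le hT1 (by norm_num)))
  · have e3 : ∀ᶠ T : ℝ in atTop, 2 ≤ T ^ (4 / 10000000 : ℝ) :=
      (tendsto_rpow_atTop (by norm_num)).eventually_ge_atTop _
    filter_upwards [core hl hx hT hH he (by linarith : κ2 ≤ 1 / 2), eventually_ge_atTop (1:ℝ), e3] with T hc hT1 q3 k hk0 hk N₁ N₂ hN₁ hN₂
    have hT0 : 0 < T := by linarith
    have hmono : ∀ a b : ℝ, a ≤ b → T ^ a ≤ T ^ b := fun a b h => Real.rpow_le_rpow_of_exponent_le hT1 h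
    rcases lt_or_ge N₂ N₁ with hN | hN
    · rw [Finset.Ioc_eq_empty (by omega), Finset.sum_empty, abs_zero]
      positivity
    -- the shift
    have hkN : |(k : ℝ)| ≤ N₁ := hk.trans ((hmono _ _ (by norm_num)).trans hN₁)
    have hkN' : |k| ≤ (N₁ : ℤ) := by exact_mod_cast hkN
    obtain ⟨A, hA⟩ : ∃ A : ℕ, (A : ℤ) = N₁ + k := ⟨(N₁ + k).toNat, Int.toNat_of_nonneg (by have := neg_abs_le k; omega)⟩
    obtain ⟨B, hB⟩ : ∃ B : ℕ, (B : ℤ) = N₂ + k := ⟨(N₂ + k).toNat, Int.toNat_of_nonneg (by have := neg_abs_le k; omega)⟩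
    have hBT : (B : ℝ) ≤ T ^ (1 + 1 / 2000000 : ℝ) := by
      have h3 : (B : ℝ) = N₂ + k := by exact_mod_cast hB
      have h4 := le_abs_self (k : ℝ)
      have h5 : T ^ (1 / 10000000 : ℝ) ≤ T ^ (1 + 1 / 10000000 : ℝ) := hmono _ _ (by norm_num)
      have h6 : T ^ (1 + 1 / 2000000 : ℝ) = T ^ (1 + 1 / 10000000 : ℝ) * T ^ (4 / 10000000 : ℝ) := by
        rw [← Real.rpow_add hT0]; norm_num
      have h7 : 0 ≤ T ^ (1 + 1 / 10000000 : ℝ) := by positivity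
      rw [h3, h6]
      nlinarith
    have hc2 := hc (-k) (neg_ne_zero.2 hk0) (by
      rw [Int.cast_neg, abs_neg]
      exact hk.trans (hmono _ _ (by norm_num))) A B hBT
    have hre : ∑ n ∈ Finset.Ioc N₁ N₂, bF T n * b1 κ2 e T (n + k) = ∑ n ∈ Finset.Ioc A B, b1 κ2 e T n * bF T (n + -k) := by
      apply Finset.sum_bij (fun (n : ℕ) _ => ((n : ℤ) + k).toNat)
      · intro n hn
        rw [Finset.mem_Ioc] at hn ⊢
        have := neg_abs_le k
        omega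
      · intro a ha b hb hab
        rw [Finset.mem_Ioc] at ha hb
        have := neg_abs_le k
        omega
      · intro b hb
        rw [Finset.mem_Ioc] at hb
        refine ⟨((b : ℤ) - k).toNat, ?_, ?_⟩
        · rw [Finset.mem_Ioc]
          omega
        · omega
      · intro n hn
        rw [Finset.mem_Ioc] at hn
        have h3 : (((n : ℤ) + k).toNat : ℤ) = n + k := Int.toNat_of_nonneg (by have := neg_abs_le k; omega)
        rw [h3, mul_comm]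
        congr 2
        ring
    rw [hre]
    exact hc2

end Pool.Agent.AP
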